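import Pool.Agent.Y579.ST.Stm

/-!
# Project ST, (VCX): a computable colouring of VC dimension one without computable solution
(helper497)
-/

set_option autoImplicit false

namespace Pool.Agent.Y497.ST

open Filter Pool.Agent.H645R2.HT Pool.Agent.Helper446 Pool.Agent.Helper446.RE
  Pool.Agent.TH747.HT Pool.Agent.TH747.HS Pool.Agent.Y579.ST

theorem sep_of_beyond {x y : ℕ} (h : Beyond x y) : Sep x y := by
  obtain ⟨hx, hy, N, hN, hd⟩ := h
  have h1 : N ≤ la y := le_la_of_dvd hy hd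
  have h2 : dg (mu x) x ≠ 0 := mem_L.1 (mu_mem hx)
  have h3 : 3 ^ mu x ≤ x := by
    by_contra hc
    push Not at hc
    apply h2
    unfold dg
    rw [Nat.div_eq_of_lt hc]
  have h4 : 3 ^ mu x < 3 ^ N := lt_of_le_of_lt h3 hN
  have h5 : mu x < N := (Nat.pow_lt_pow_iff_right (by norm_num)).1 h4
  exact lt_of_lt_of_le h5 h1

/-- The colouring. -/
def col (r : ℕ → ℕ → Bool) (n : ℕ) : Fin 2 := bif r (la n) (mu n) then 1 else 0

theorem c_col {r : ℕ → ℕ → Bool} (hr : Computable (fun p : ℕ × ℕ => r p.1 p.2)) :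
    Computable (col r) := by
  unfold col
  refine Computable.cond ?_ (Computable.const _) (Computable.const _)
  exact hr.comp (g := fun n : ℕ => (la n, mu n)) (Computable.pair (by fun_prop) (by fun_prop))

theorem col_add {r : ℕ → ℕ → Bool} {x y : ℕ} (hx : 0 < x) (hy : 0 < y) (h : Sep x y) :
    col r (x + y) = bif r (la x) (mu y) then 1 else 0 := by
  unfold col
  rw [la_add hx h, mu_add hy h]

/-- The set of the lowest positions of the finite sums. -/
def W1 (X : Set ℕ) (a : ℕ) : Prop :=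
  ∃ g : ℕ, 0 < (L g).length ∧ (∀ x ∈ L g, x ∈ X) ∧ la (L g).sum = a

/-- The set of the highest positions of the finite sums beyond `m` that avoid `F`. -/
def W2 (X : Set ℕ) (F : List ℕ) (m : ℕ) (b : ℕ) : Prop :=
  ∃ g : ℕ, 0 < (L g).length ∧ (∀ x ∈ L g, x ∈ X ∧ x ∉ F) ∧ m < la (L g).sum ∧ mu (L g).sum = b

theorem re_W1 {X : Set ℕ} (hX : REPred fun n : ℕ => n ∈ X) : REPred (W1 X) := by
  unfold W1
  refine RE.ex (p := fun (a g : ℕ) => 0 < (L g).length ∧ (∀ x ∈ L g, x ∈ X) ∧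
    la (L g).sum = a) ?_
  refine RE.and (RE.lt (by fun_prop) (by fun_prop)) (RE.and ?_ ?_)
  · exact RE.all_mem (p := fun (_ : ℕ × ℕ) (x : ℕ) => x ∈ X) (l := fun y => L y.2)
      (RE.comp hX Computable.snd) (by fun_prop)
  · exact RE.eq (c_la (c_sum (by fun_prop))) (by fun_prop)

theorem re_W2 {X : Set ℕ} (hX : REPred fun n : ℕ => n ∈ X) (F : List ℕ) (m : ℕ) :
    REPred (W2 X F m) := by
  unfold W2
  refine RE.ex (p := fun (b g : ℕ) => 0 < (L g).length ∧ (∀ x ∈ L g, x ∈ X ∧ x ∉ F) ∧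
    m < la (L g).sum ∧ mu (L g).sum = b) ?_
  refine RE.and (RE.lt (by fun_prop) (by fun_prop)) (RE.and ?_ (RE.and ?_ ?_))
  · refine RE.all_mem (p := fun (_ : ℕ × ℕ) (x : ℕ) => x ∈ X ∧ x ∉ F) (l := fun y => L y.2)
      (RE.and (RE.comp hX Computable.snd) ?_) (by fun_prop)
    exact RE.not_mem_list Computable.snd (Computable.const F)
  · exact RE.lt (Computable.const m) (c_la (c_sum (by fun_prop)))
  · exact RE.eq (c_mu (c_sum (by fun_prop))) (by fun_prop)

theorem unb_W1 {X : Set ℕ} (hX : X.Infinite) (h0 : 0 ∉ X) (N : ℕ) : ∃ n, N < n ∧ W1 X n := by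
  obtain ⟨U, hU, hUX⟩ := exists_idem hX (fun x hx => Nat.pos_of_ne_zero fun h => h0 (h ▸ hx))
  obtain ⟨t, ⟨G, g1, g2, -, rfl⟩, -, ht⟩ := ((hUX ∅).and (hU.far N)).exists
  obtain ⟨g, hg⟩ := exists_code G
  have hG : (L g).toFinset = G := by
    ext x
    rw [List.mem_toFinset, hg]
  have hs : (L g).sum = ∑ x ∈ G, x := by rw [sum_L, hG]
  refine ⟨_, ht, g, ?_, fun x hx => g2 ((hg x).1 hx), by rw [hs]⟩
  obtain ⟨x, hx⟩ := g1
  exact List.length_pos_of_mem ((hg x).2 hx)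

theorem unb_W2 {X : Set ℕ} (hX : X.Infinite) (h0 : 0 ∉ X) (F : List ℕ) (m N : ℕ) :
    ∃ n, N < n ∧ W2 X F m n := by
  obtain ⟨U, hU, hUX⟩ := exists_idem hX (fun x hx => Nat.pos_of_ne_zero fun h => h0 (h ▸ hx))
  obtain ⟨t, ⟨G, g1, g2, g3, rfl⟩, hpos, ht⟩ :=
    ((hUX F.toFinset).and (hU.far (max N m))).exists
  obtain ⟨g, hg⟩ := exists_code G
  have hG : (L g).toFinset = G := by
    ext x
    rw [List.mem_toFinset, hg]
  have hs : (L g).sum = ∑ x ∈ G, x := by rw [sum_L, hG]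
  have hN := lt_of_le_of_lt (le_max_left N m) ht
  have hm := lt_of_le_of_lt (le_max_right N m) ht
  refine ⟨mu (∑ x ∈ G, x), lt_of_lt_of_le hN (la_le_mu hpos), g, ?_, fun x hx => ?_,
    by rw [hs]; exact hm, by rw [hs]⟩
  · obtain ⟨x, hx⟩ := g1
    exact List.length_pos_of_mem ((hg x).2 hx)
  · have hx' := (hg x).1 hx
    refine ⟨g2 hx', fun hF => ?_⟩
    exact Finset.disjoint_left.1 g3 (List.mem_toFinset.2 hF) hx'

/-- Two sums: `la s = a`, `mu t = b` gives the colour of `s + t`. -/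
theorem two_sums {r : ℕ → ℕ → Bool} {X : Set ℕ} {i : Fin 2} (h0 : 0 ∉ X)
    (hc : ∀ F : Finset ℕ, (F : Set ℕ) ⊆ X → F.Nonempty → col r (∑ n ∈ F, n) = i)
    {P Q : Set ℕ} (h1 : ∃ n ∈ P, W1 X n) (h2 : ∀ F m, ∃ n ∈ Q, W2 X F m n) :
    ∃ a ∈ P, ∃ b ∈ Q, (bif r a b then (1 : Fin 2) else 0) = i := by
  obtain ⟨a, ha, g, hg1, hg2, hg3⟩ := h1
  obtain ⟨b, hb, g', hg1', hg2', hg3', hg4'⟩ := h2 (L g) (mu (L g).sum)
  refine ⟨a, ha, b, hb, ?_⟩
  have hpos : ∀ g : ℕ, 0 < (L g).length → (∀ x ∈ L g, x ∈ X) → 0 < (L g).sum := by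
    intro g h3 h4
    obtain ⟨x, hx⟩ := List.exists_mem_of_length_pos h3
    have h5 : 0 < x := Nat.pos_of_ne_zero fun h => h0 (h ▸ h4 x hx)
    exact lt_of_lt_of_le h5 (List.single_le_sum (fun _ _ => Nat.zero_le _) x hx)
  have hp := hpos g hg1 hg2
  have hp' := hpos g' hg1' (fun x hx => (hg2' x hx).1)
  have hsep : Sep (L g).sum (L g').sum := hg3'
  have hdis : Disjoint (L g).toFinset (L g').toFinset := by
    rw [Finset.disjoint_left]
    intro x hx hx'
    exact (hg2' x (List.mem_toFinset.1 hx')).2 (List.mem_toFinset.1 hx)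
  have hcol := hc ((L g).toFinset ∪ (L g').toFinset) ?_ ?_
  · rw [Finset.sum_union hdis, ← sum_L, ← sum_L, col_add hp hp' hsep, hg3, hg4'] at hcol
    exact hcol
  · intro x hx
    rw [Finset.coe_union] at hx
    rcases hx with hx | hx
    · exact hg2 x (List.mem_toFinset.1 hx)
    · exact (hg2' x (List.mem_toFinset.1 hx)).1
  · obtain ⟨x, hx⟩ := List.exists_mem_of_length_pos hg1
    exact ⟨x, Finset.mem_union_left _ (List.mem_toFinset.2 hx)⟩

/-- **VCX.** -/
theorem t_VCX : S_VCX := by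
  rintro ⟨r, Lo, Hi, hr, hirr, htr, htot, hLH, himm⟩
  refine ⟨col r, c_col hr, ?_, ?_⟩
  · rintro ⟨x, hx⟩
    have key : ∀ (S : Fin 2 → Fin 2), ∃ m, (bif r (la (x 0)) m then (1 : Fin 2) else 0) = S 0 ∧
        (bif r (la (x 1)) m then (1 : Fin 2) else 0) = S 1 := by
      intro S
      obtain ⟨y, hy1, hy2⟩ := hx S
      refine ⟨mu y, ?_, ?_⟩
      · rw [← hy2 0, col_add (hy1 0).1 (hy1 0).2.1 (sep_of_beyond (hy1 0))]
      · rw [← hy2 1, col_add (hy1 1).1 (hy1 1).2.1 (sep_of_beyond (hy1 1))]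
    by_cases hab : la (x 0) = la (x 1)
    · obtain ⟨m, h1, h2⟩ := key ![0, 1]
      rw [hab] at h1
      have h3 : (![0, 1] : Fin 2 → Fin 2) 0 = (![0, 1] : Fin 2 → Fin 2) 1 := h1.symm.trans h2
      exact absurd h3 (by decide)
    · rcases htot _ _ hab with h | h
      · obtain ⟨m, h1, h2⟩ := key ![0, 1]
        cases h3 : r (la (x 1)) m with
        | false => rw [h3] at h2; exact absurd h2 (by decide)
        | true =>
          rw [htr _ _ _ h h3] at h1
          exact absurd h1 (by decide)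
      · obtain ⟨m, h1, h2⟩ := key ![1, 0]
        cases h3 : r (la (x 0)) m with
        | false => rw [h3] at h1; exact absurd h1 (by decide)
        | true =>
          rw [htr _ _ _ h h3] at h2
          exact absurd h2 (by decide)
  · rintro X hX i ⟨hinf, h0, hc⟩
    have hre : REPred fun n : ℕ => n ∈ X := hX.to_re
    have hW1 := himm _ (re_W1 hre) (unb_W1 hinf h0)
    have hW2 := fun F m => himm _ (re_W2 hre F m) (unb_W2 hinf h0 F m)
    obtain ⟨a, ha, b, hb, hab⟩ := two_sums h0 hc hW1.1 (fun F m => (hW2 F m).2)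
    obtain ⟨a', ha', b', hb', hab'⟩ := two_sums h0 hc hW1.2 (fun F m => (hW2 F m).1)
    rw [hLH a ha b hb] at hab
    cases h3 : r a' b' with
    | false =>
      rw [h3] at hab'
      rw [← hab'] at hab
      exact absurd hab (by decide)
    | true =>
      have h4 := htr _ _ _ h3 (hLH b' hb' a' ha')
      rw [hirr] at h4
      exact absurd h4 (by decide)

end Pool.Agent.Y497.ST
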